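import Pool.Agent.Helper74.WB.St

/-!
# Project WB (MP_26f0da_lc), module ENA: the coding, first direction
-/

set_option autoImplicit false

namespace Pool.Agent.Helper14.WB

open Pool.Agent.Helper74 Pool.Agent.Helper74.WB

theorem hENA : StENA := by
  intro Λ w h
  induction h with
  | nil => exact OP.nil
  | skip x w _ ih =>
    rw [List.flatMap_cons]
    exact OP.skip _ _ ih
  | wrap x o o' u v _ _ ihu ihv =>
    have e : ((x, o) :: (u ++ (iv x, o') :: v)).flatMap enc =
        enc (x, o) ++ (u.flatMap enc ++ (enc (iv x, o') ++ v.flatMap enc)) := by
      simp [List.flatMap_cons, List.flatMap_append]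
    rw [e]
    have e1 : enc (x, true) = [((x, true), true)] := rfl
    have e2 : enc (x, false) = [((x, true), true), ((iv x, false), false)] := rfl
    have e3 : enc (iv x, true) = [((iv x, true), true)] := rfl
    have e4 : enc (iv x, false) = [((iv x, true), true), ((x, false), false)] := by
      simp [enc, iv_iv]
    cases o <;> cases o'
    · rw [e2, e4]
      have h1 := OP.wrap (iv x, false) false true _ [] ihu OP.nil
      have h2 := OP.wrap (x, true) true false _ _ h1 ihv
      simpa [iv] using h2
    · rw [e2, e3]
      have h1 := OP.wrap (iv x, false) false true _ _ ihu ihv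
      have h2 := OP.skip (x, true) _ h1
      simpa [iv] using h2
    · rw [e1, e4]
      have h1 := op_append _ _ ihu (OP.skip (iv x, true) _ OP.nil)
      have h2 := OP.wrap (x, true) true false _ _ h1 ihv
      simpa [iv] using h2
    · rw [e1, e3]
      have h1 := op_append _ _ ihu (OP.skip (iv x, true) _ ihv)
      exact OP.skip (x, true) _ h1

end Pool.Agent.Helper14.WB
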