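import Pool.Agent.Helper74.WB.St

/-!
# Project WB (MP_26f0da_lc), module GRA: an `OP` word can be read from every reduced stack
-/

set_option autoImplicit false

namespace Pool.Agent.Helper14.WB

open Pool.Agent.Helper74 Pool.Agent.Helper74.WB

theorem hGRA : StGRA := by
  intro Λ w σ h hσ
  induction h generalizing σ with
  | nil => exact (gr_nil σ σ).2 rfl
  | skip x w _ ih => exact (gr_cons x true w σ σ).2 (Or.inr ⟨rfl, ih σ hσ⟩)
  | wrap x o o' u v _ _ ihu ihv =>
    refine (gr_cons x o _ σ σ).2 (Or.inl ?_)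
    rw [gr_append]
    refine ⟨ap x σ, ihu _ (red_ap x σ hσ), (gr_cons (iv x) o' v _ σ).2 (Or.inl ?_)⟩
    rw [ap_iv_ap x σ hσ]
    exact ihv σ hσ

end Pool.Agent.Helper14.WB
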